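import Pool.Agent.helper47.TK.SpecN

/-! # Project tk, row gk:KE2 -/

namespace Pool.Agent.TK

open Polynomial NumberField Pool.Agent.FJ Pool.Agent.HC Pool.Agent.SJ
open scoped NumberField Topology ComplexConjugate

noncomputable section

/-- the norm of a prime factor of an ideal whose norm divides a power of `p` -/
theorem KE2_norm_factor {L : Type} [Field L] [NumberField L] {p : ℕ} (hp : p.Prime) {P : Ideal (𝓞 L)}
    (hP : Prime P) {k : ℕ} (h : Ideal.absNorm P ∣ p ^ k) : p ∣ Ideal.absNorm P := by
  obtain ⟨j, -, hj⟩ := (Nat.dvd_prime_pow hp).1 h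
  rcases Nat.eq_zero_or_pos j with h0 | h0
  · exfalso
    rw [h0, pow_zero] at hj
    have h1 : P = ⊤ := Ideal.absNorm_eq_one_iff.1 hj
    exact hP.not_isUnit (by rw [h1]; exact Ideal.isUnit_iff.2 rfl)
  · rw [hj]
    exact dvd_pow_self p h0.ne'

theorem KE2_mem_factors {L : Type} [Field L] [NumberField L] {p : ℕ} (hp : p.Prime) {P : Ideal (𝓞 L)}
    (hP : Prime P) {k : ℕ} (h : Ideal.absNorm P ∣ p ^ k) :
    P ∈ UniqueFactorizationMonoid.normalizedFactors (Ideal.span {((p : ℕ) : 𝓞 L)}) := by
  have hp0 : Ideal.span {((p : ℕ) : 𝓞 L)} ≠ 0 := by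
    intro h0
    rw [Ideal.zero_eq_bot, Ideal.span_singleton_eq_bot] at h0
    exact hp.ne_zero (by exact_mod_cast h0)
  have hPp : P.IsPrime := Ideal.isPrime_of_prime hP
  have hmem : ((p ^ k : ℕ) : 𝓞 L) ∈ P := by
    obtain ⟨c, hc⟩ := h
    rw [hc, Nat.cast_mul]
    exact Ideal.mul_mem_right _ _ (Ideal.absNorm_mem P)
  have hmem2 : ((p : ℕ) : 𝓞 L) ∈ P := by
    rw [Nat.cast_pow] at hmem
    exact hPp.mem_of_pow_mem _ hmem
  have hdvd : P ∣ Ideal.span {((p : ℕ) : 𝓞 L)} := by
    rw [Ideal.dvd_span_singleton]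
    exact hmem2
  obtain ⟨q, hq, hPq⟩ := UniqueFactorizationMonoid.exists_mem_normalizedFactors_of_dvd hp0
    hP.irreducible hdvd
  rw [associated_iff_eq] at hPq
  rw [hPq]
  exact hq

theorem KE2_card {L : Type} [Field L] [NumberField L] {p : ℕ} (hp : p.Prime) :
    Multiset.card (UniqueFactorizationMonoid.normalizedFactors (Ideal.span {((p : ℕ) : 𝓞 L)})) ≤
      Module.finrank ℚ L := by
  have hp0 : Ideal.span {((p : ℕ) : 𝓞 L)} ≠ 0 := by
    intro h0
    rw [Ideal.zero_eq_bot, Ideal.span_singleton_eq_bot] at h0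
    exact hp.ne_zero (by exact_mod_cast h0)
  have hnorm : Ideal.absNorm (Ideal.span {((p : ℕ) : 𝓞 L)}) = p ^ Module.finrank ℚ L := by
    rw [Ideal.absNorm_span_singleton]
    have h1 : ((p : ℕ) : 𝓞 L) = algebraMap ℤ (𝓞 L) p := by simp
    rw [h1, Algebra.norm_algebraMap, RingOfIntegers.rank, Int.natAbs_pow, Int.natAbs_natCast]
  have hprod : (UniqueFactorizationMonoid.normalizedFactors
      (Ideal.span {((p : ℕ) : 𝓞 L)})).prod = Ideal.span {((p : ℕ) : 𝓞 L)} :=
    associated_iff_eq.1 (UniqueFactorizationMonoid.prod_normalizedFactors hp0)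
  have hprod2 : (Multiset.map (Ideal.absNorm (S := 𝓞 L)) (UniqueFactorizationMonoid.normalizedFactors
      (Ideal.span {((p : ℕ) : 𝓞 L)}))).prod = p ^ Module.finrank ℚ L := by
    rw [← hnorm]
    conv_rhs => rw [← hprod]
    exact (map_multiset_prod _ _).symm
  set M := UniqueFactorizationMonoid.normalizedFactors (Ideal.span {((p : ℕ) : 𝓞 L)}) with hM
  have hdv : ∀ P ∈ M, p ∣ Ideal.absNorm P := by
    intro P hP
    have h1 : Ideal.absNorm P ∣ p ^ Module.finrank ℚ L := by
      rw [← hprod2]
      exact Multiset.dvd_prod (Multiset.mem_map_of_mem _ hP)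
    exact KE2_norm_factor hp (UniqueFactorizationMonoid.prime_of_normalized_factor P hP) h1
  have hdv2 : ∀ N : Multiset (Ideal (𝓞 L)), (∀ P ∈ N, p ∣ Ideal.absNorm P) →
      p ^ Multiset.card N ∣ (Multiset.map (Ideal.absNorm (S := 𝓞 L)) N).prod := by
    intro N
    induction N using Multiset.induction_on with
    | empty => intro _; simp
    | cons a s ih =>
      intro h
      rw [Multiset.card_cons, Multiset.map_cons, Multiset.prod_cons, pow_succ, mul_comm]
      exact mul_dvd_mul (h a (Multiset.mem_cons_self a s))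
        (ih (fun P hP => h P (Multiset.mem_cons_of_mem hP)))
  have h3 := hdv2 M hdv
  rw [hprod2] at h3
  exact (Nat.pow_dvd_pow_iff_le_right hp.one_lt).1 h3

open Classical in
theorem KE2 : KE2_stmt := by
  intro L _ _ p k hp
  set M := UniqueFactorizationMonoid.normalizedFactors (Ideal.span {((p : ℕ) : 𝓞 L)}) with hM
  set S : Finset (Ideal (𝓞 L)) := M.toFinset with hS
  have hScard : S.card ≤ Module.finrank ℚ L := (Multiset.toFinset_card_le M).trans (KE2_card hp)
  have hpk : p ^ k ≠ 0 := pow_ne_zero _ hp.ne_zero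
  -- the nonzero ideals
  have hne : ∀ I : Ideal (𝓞 L), Ideal.absNorm I = p ^ k → I ≠ 0 := by
    intro I hI h0
    rw [h0, Ideal.zero_eq_bot, Ideal.absNorm_bot] at hI
    exact hpk hI.symm
  have hfac : ∀ I : Ideal (𝓞 L), Ideal.absNorm I = p ^ k → ∀ P ∈
      UniqueFactorizationMonoid.normalizedFactors I, P ∈ S := by
    intro I hI P hP
    have hPr := UniqueFactorizationMonoid.prime_of_normalized_factor P hP
    have hd : P ∣ I := UniqueFactorizationMonoid.dvd_of_mem_normalizedFactors hP
    have hd2 : Ideal.absNorm P ∣ p ^ k := by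
      rw [← hI]
      exact map_dvd Ideal.absNorm hd
    rw [hS, Multiset.mem_toFinset]
    exact KE2_mem_factors hp hPr hd2
  have hcount : ∀ I : Ideal (𝓞 L), Ideal.absNorm I = p ^ k → ∀ P : Ideal (𝓞 L),
      (UniqueFactorizationMonoid.normalizedFactors I).count P < k + 1 := by
    intro I hI P
    by_cases hP : P ∈ UniqueFactorizationMonoid.normalizedFactors I
    · have hPr := UniqueFactorizationMonoid.prime_of_normalized_factor P hP
      have hd : P ∣ I := UniqueFactorizationMonoid.dvd_of_mem_normalizedFactors hP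
      have hd2 : Ideal.absNorm P ∣ p ^ k := by
        rw [← hI]
        exact map_dvd Ideal.absNorm hd
      have h1 : p ∣ Ideal.absNorm P := KE2_norm_factor hp hPr hd2
      set c := (UniqueFactorizationMonoid.normalizedFactors I).count P with hc
      have h2 : P ^ c ∣ I := by
        have h3 : Multiset.replicate c P ≤ UniqueFactorizationMonoid.normalizedFactors I :=
          Multiset.le_count_iff_replicate_le.1 le_rfl
        have h4 := Multiset.prod_dvd_prod_of_le h3
        rw [Multiset.prod_replicate] at h4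
        rw [← associated_iff_eq.1 (UniqueFactorizationMonoid.prod_normalizedFactors (hne I hI))]
        exact h4
      have h5 : Ideal.absNorm P ^ c ∣ p ^ k := by
        rw [← hI, ← map_pow]
        exact map_dvd Ideal.absNorm h2
      have h6 : p ^ c ∣ p ^ k := (pow_dvd_pow_of_dvd h1 c).trans h5
      exact Nat.lt_succ_of_le ((Nat.pow_dvd_pow_iff_le_right hp.one_lt).1 h6)
    · rw [Multiset.count_eq_zero_of_notMem hP]
      omega
  -- the injection
  let f : {I : Ideal (𝓞 L) // Ideal.absNorm I = p ^ k} → (S → Fin (k + 1)) := fun I P =>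
    ⟨(UniqueFactorizationMonoid.normalizedFactors I.1).count P.1, hcount I.1 I.2 P.1⟩
  have hf : Function.Injective f := by
    intro I J hIJ
    have h1 : UniqueFactorizationMonoid.normalizedFactors I.1 =
        UniqueFactorizationMonoid.normalizedFactors J.1 := by
      ext P
      by_cases hP : P ∈ S
      · have h2 := congrFun hIJ ⟨P, hP⟩
        exact congrArg Fin.val h2
      · rw [Multiset.count_eq_zero_of_notMem (fun h => hP (hfac I.1 I.2 P h)),
          Multiset.count_eq_zero_of_notMem (fun h => hP (hfac J.1 J.2 P h))]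
    apply Subtype.ext
    rw [← associated_iff_eq.1 (UniqueFactorizationMonoid.prod_normalizedFactors (hne I.1 I.2)),
      ← associated_iff_eq.1 (UniqueFactorizationMonoid.prod_normalizedFactors (hne J.1 J.2)), h1]
  have h7 : nid L (p ^ k) ≤ Nat.card (S → Fin (k + 1)) := Nat.card_le_card_of_injective f hf
  have h8 : Nat.card (S → Fin (k + 1)) = (k + 1) ^ S.card := by
    rw [Nat.card_eq_fintype_card, Fintype.card_fun, Fintype.card_fin, Fintype.card_coe]
  rw [h8] at h7
  exact h7.trans (Nat.pow_le_pow_right (Nat.succ_pos k) hScard)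

end

end Pool.Agent.TK
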